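import Mathlib
import Pool.Agent.H32.Stech

set_option autoImplicit false

namespace Pool.Agent.Results.MP_462cdc_an.NotStrict

open Pool.Agent.H32.Stech in
/-- A real Banach space that is not strictly convex in which the uniqueness set of every compact set
is dense and non-meagre (even residual). -/
theorem result :
    ∃ (E : Type) (_ : NormedAddCommGroup E) (_ : NormedSpace ℝ E) (_ : CompleteSpace E),
      (¬ ∀ x y : E, ‖x‖ = 1 → ‖y‖ = 1 → x ≠ y → ‖(1 / 2 : ℝ) • (x + y)‖ < 1) ∧
      ∀ G : Set E, IsCompact G →
        {x : E | {g ∈ G | ‖x - g‖ = Metric.infDist x G}.Subsingleton} ∈ residual E ∧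
        Dense {x : E | {g ∈ G | ‖x - g‖ = Metric.infDist x G}.Subsingleton} ∧
        ¬ IsMeagre {x : E | {g ∈ G | ‖x - g‖ = Metric.infDist x G}.Subsingleton} := by
  refine ⟨D, inferInstance, inferInstance, inferInstance, ?_, fun G hG => ?_⟩
  · intro h
    have h1 := h (mk 1 0 0) (mk 0 1 0) (by rw [norm_mk]; simp) (by rw [norm_mk]; simp) (by
      intro e
      have := congrArg (fun x : D => (x : WithLp 1 (K × K)).fst.fst) e
      simp [mk] at this)
    have e : mk 1 0 0 + mk 0 1 0 = mk 1 1 0 := by
      apply Subtype.ext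
      simp [mk, ← WithLp.toLp_add]
    rw [e, norm_smul, norm_mk] at h1
    norm_num at h1
  · have hr := residual_of_rotund pr pr_open H_inf rot G hG
    refine ⟨hr, dense_of_mem_residual hr, fun hm => ?_⟩
    have := (dense_of_mem_residual (Filter.inter_mem hr hm)).nonempty
    simp at this

end Pool.Agent.Results.MP_462cdc_an.NotStrict
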